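import Pool.Agent.H602R3.AffMain
import Pool.Agent.H362R2.CM.Final

/-!
# The affine maps that preserve infinitely many primes generate a group of index at most four

Call an affine map `x ↦ (b x + c) / a` good if `a p - b q = c` has infinitely many solutions in
primes. There are `m` and a subgroup `H` of index at most four in the multiplicative group of the
rationals, containing `-1`, such that for `u > 0` and every rational `v` the map `x ↦ u x + v` is a
composition of `m` good maps if and only if `u` lies in `H`.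

The coloured Maynard-Tao theorem (a quarter of the classes of linear forms is hit simultaneously by
primes) is taken from the team's library (`Pool.Agent.H362R2.CM.Final`).
-/

namespace Pool.Agent.Results.MP_bf63dc_nt.AffineGroupIndexFour

theorem result : ∃ (m : ℕ) (H : Subgroup ℚˣ), -1 ∈ H ∧ 1 ≤ H.index ∧ H.index ≤ 4 ∧
    ∀ (u : ℚˣ) (v : ℚ), 0 < (u : ℚ) → (u ∈ H ↔ ∃ l : List (ℕ × ℕ × ℤ), l.length = m ∧
      (∀ t ∈ l, 1 ≤ t.1 ∧ 1 ≤ t.2.1 ∧ {pq : ℕ × ℕ | pq.1.Prime ∧ pq.2.Prime ∧
        (t.1 : ℤ) * pq.1 - t.2.1 * pq.2 = t.2.2}.Infinite) ∧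
      ∀ x : ℚ, l.foldr (fun t y => ((t.2.1 : ℚ) * y + t.2.2) / t.1) x = u * x + v) :=
  Pool.Agent.H602R3.Aff.main_int Pool.Agent.H362R2.CM.quarter

end Pool.Agent.Results.MP_bf63dc_nt.AffineGroupIndexFour
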