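import Pool.Agent.H732R3.PairB
import Pool.Agent.H732R3.QuarterB

/-!
# Solvable lines near every position for one of the ratios of five slopes

For all positive integers `m_0, ..., m_4` there is `C` such that for every integer `B` there are
`0 ≤ i < j ≤ 4` and an equation `a p - b q = c` which satisfies the hypotheses of the question
(`a, b, c` pairwise coprime, `c ≠ 0`, not all odd), has the slope `b / a = m_j / m_i` and a constant
`c` with `|c - a B| ≤ C`, and has infinitely many solutions in primes; more precisely at least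
`x ^ (1 - η)` primes `q ≤ x` occur, for arbitrarily large `x`, for every `η > 0`.

The coloured Maynard-Tao theorem (`Pool.Agent.H362R2.CM`) is from the starting files.
-/

open Filter

namespace Pool.Agent.Results.MP_bf63dc_nt.FiveSlopes

theorem result : ∀ m : Fin 5 → ℕ, (∀ l, 1 ≤ m l) → ∃ C : ℕ, ∀ B : ℤ,
    ∃ i j : Fin 5, i < j ∧ ∃ (a b : ℕ) (c : ℤ), 1 ≤ a ∧ 1 ≤ b ∧ a * m j = b * m i ∧ c ≠ 0 ∧
      IsCoprime (a : ℤ) b ∧ IsCoprime (a : ℤ) c ∧ IsCoprime (b : ℤ) c ∧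
      ¬ (Odd a ∧ Odd b ∧ Odd c) ∧ |c - a * B| ≤ C ∧
      {pq : ℕ × ℕ | pq.1.Prime ∧ pq.2.Prime ∧ (a : ℤ) * pq.1 - b * pq.2 = c}.Infinite ∧
      ∀ η : ℝ, 0 < η → ∃ᶠ x : ℝ in atTop, x ^ (1 - η) ≤
        ({q : ℕ | (q.Prime ∧ ∃ p : ℕ, p.Prime ∧ (a : ℤ) * p - b * q = c) ∧ (q : ℝ) ≤ x}.ncard : ℝ) := by
  intro m hm
  obtain ⟨C, hC⟩ := Pool.Agent.H732R3.PairB.slopes Pool.Agent.H732R3.BigQ.quarterB m hm
  refine ⟨C, fun B => ?_⟩
  obtain ⟨i, j, hij, a, b, c, h1, h2, h3, h4, h5, h6, h7, h8, h9, h10⟩ := hC B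
  refine ⟨i, j, hij, a, b, c, h1, h2, h3, h4, h5, h6, h7, h8, h9, ?_, h10⟩
  apply Set.Infinite.of_image Prod.snd
  refine h10.infinite.mono ?_
  rintro q ⟨hq, p, hp, hpq⟩
  exact ⟨(p, q), ⟨hp, hq, hpq⟩, rfl⟩

end Pool.Agent.Results.MP_bf63dc_nt.FiveSlopes
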